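import Mathlib

set_option autoImplicit false
open Equiv Equiv.Perm

namespace Pool.Agent.H570R4

variable {α : Type} [Fintype α] [DecidableEq α]

/-- transpositions together with the identity -/
def T1 (α : Type) [Fintype α] [DecidableEq α] : Finset (Perm α) :=
  (Finset.univ : Finset (α × α)).image (fun p => swap p.1 p.2)

/-- transpositions -/
def TT (α : Type) [Fintype α] [DecidableEq α] : Finset (Perm α) := (T1 α).erase 1

/-- balls for the transposition length -/
def BB (α : Type) [Fintype α] [DecidableEq α] : ℕ → Finset (Perm α)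
  | 0 => {1}
  | (m+1) => (BB α m ×ˢ T1 α).image (fun p => p.1 * p.2)

lemma mem_T1 {t : Perm α} : t ∈ T1 α ↔ ∃ a b, swap a b = t := by
  unfold T1
  simp

lemma T1_sq {t : Perm α} (h : t ∈ T1 α) : t * t = 1 := by
  obtain ⟨a, b, rfl⟩ := mem_T1.mp h
  exact swap_mul_self a b

lemma T1_conj {t : Perm α} (h : t ∈ T1 α) (g : Perm α) : g * t * g⁻¹ ∈ T1 α := by
  obtain ⟨a, b, rfl⟩ := mem_T1.mp h
  rw [← swap_apply_apply]
  exact mem_T1.mpr ⟨_, _, rfl⟩

lemma one_mem_T1 [Nonempty α] : (1 : Perm α) ∈ T1 α := by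
  obtain ⟨a⟩ := ‹Nonempty α›
  exact mem_T1.mpr ⟨a, a, swap_self a⟩

lemma T1_sign {t : Perm α} (h : t ∈ TT α) : sign t = -1 := by
  unfold TT at h
  rw [Finset.mem_erase] at h
  obtain ⟨a, b, rfl⟩ := mem_T1.mp h.2
  apply sign_swap
  rintro rfl
  exact h.1 (swap_self a)

lemma card_T1 : (T1 α).card ≤ Fintype.card α ^ 2 := by
  unfold T1
  refine Finset.card_image_le.trans ?_
  rw [Finset.card_univ, Fintype.card_prod, sq]

lemma card_TT : (TT α).card ≤ Fintype.card α ^ 2 :=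
  (Finset.card_le_card (Finset.erase_subset _ _)).trans card_T1

lemma mem_BB_succ {m : ℕ} {g : Perm α} : g ∈ BB α (m+1) ↔ ∃ t ∈ T1 α, g * t ∈ BB α m := by
  show g ∈ (BB α m ×ˢ T1 α).image (fun p => p.1 * p.2) ↔ _
  rw [Finset.mem_image]
  constructor
  · rintro ⟨⟨b, t⟩, hp, rfl⟩
    rw [Finset.mem_product] at hp
    refine ⟨t, hp.2, ?_⟩
    show b * t * t ∈ _
    rw [mul_assoc, T1_sq hp.2, mul_one]
    exact hp.1
  · rintro ⟨t, ht, h⟩
    refine ⟨(g * t, t), Finset.mem_product.mpr ⟨h, ht⟩, ?_⟩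
    show g * t * t = g
    rw [mul_assoc, T1_sq ht, mul_one]

lemma BB_mono [Nonempty α] (m : ℕ) : BB α m ⊆ BB α (m+1) := by
  intro g hg
  rw [mem_BB_succ]
  exact ⟨1, one_mem_T1, by rwa [mul_one]⟩

lemma card_BB (m : ℕ) : (BB α m).card ≤ (Fintype.card α ^ 2) ^ m := by
  induction m with
  | zero => simp [BB]
  | succ m ih =>
    show ((BB α m ×ˢ T1 α).image (fun p => p.1 * p.2)).card ≤ _
    refine Finset.card_image_le.trans ?_
    rw [Finset.card_product, pow_succ]
    exact Nat.mul_le_mul ih card_T1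

lemma BB_conj (m : ℕ) : ∀ g ∈ BB α m, ∀ h : Perm α, h * g * h⁻¹ ∈ BB α m := by
  induction m with
  | zero =>
    intro g hg h
    simp only [BB, Finset.mem_singleton] at hg ⊢
    rw [hg]; group
  | succ m ih =>
    intro g hg h
    rw [mem_BB_succ] at hg ⊢
    obtain ⟨t, ht, hgt⟩ := hg
    refine ⟨h * t * h⁻¹, T1_conj ht h, ?_⟩
    have : h * g * h⁻¹ * (h * t * h⁻¹) = h * (g * t) * h⁻¹ := by group
    rw [this]
    exact ih _ hgt h

lemma BB_mul_T1 {m : ℕ} {g t : Perm α} (hg : g ∈ BB α m) (ht : t ∈ T1 α) :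
    g * t ∈ BB α (m+1) := by
  rw [mem_BB_succ]
  exact ⟨t, ht, by rwa [mul_assoc, T1_sq ht, mul_one]⟩

lemma BB_mul_two {m : ℕ} {g a : Perm α} (hg : g ∈ BB α m) (ha : a ∈ BB α 2) :
    g * a ∈ BB α (m+2) := by
  rw [mem_BB_succ] at ha
  obtain ⟨t, ht, h1⟩ := ha
  rw [mem_BB_succ] at h1
  obtain ⟨s, hs, h2⟩ := h1
  simp only [BB, Finset.mem_singleton] at h2
  have : a = s * t := by
    have h3 : a * t * s * s * t = s * t := by rw [h2, one_mul]
    rw [mul_assoc (a*t) s s, T1_sq hs, mul_one, mul_assoc, T1_sq ht, mul_one] at h3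
    exact h3
  rw [this, ← mul_assoc]
  exact BB_mul_T1 (BB_mul_T1 hg hs) ht

/-- every element of the sphere can be shortened by a genuine transposition -/
lemma exists_shorten {m : ℕ} {g : Perm α} (hg : g ∈ BB α (m+1)) (hg' : g ∉ BB α m) :
    ∃ s ∈ TT α, g * s ∈ BB α m := by
  obtain ⟨t, ht, h⟩ := mem_BB_succ.mp hg
  refine ⟨t, ?_, h⟩
  unfold TT
  rw [Finset.mem_erase]
  refine ⟨?_, ht⟩
  rintro rfl
  rw [mul_one] at h
  exact hg' h

lemma TT_sub {t : Perm α} (h : t ∈ TT α) : t ∈ T1 α := Finset.mem_of_mem_erase h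

lemma TT_conj {t : Perm α} (h : t ∈ TT α) (g : Perm α) : g * t * g⁻¹ ∈ TT α := by
  unfold TT at h ⊢
  rw [Finset.mem_erase] at h ⊢
  refine ⟨?_, T1_conj h.2 g⟩
  intro h1
  apply h.1
  have : t = g⁻¹ * (g * t * g⁻¹) * g := by group
  rw [this, h1]; group

def DD (m : ℕ) (g : Perm α) : Finset (Perm α) := (TT α).filter (fun t => g * t ∈ BB α m)

lemma key [Nonempty α] (m : ℕ) : ∀ g ∈ BB α (m+1), g ∉ BB α m → m + 1 ≤ (DD m g).card := by
  induction m with
  | zero =>
    intro g hg hg'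
    obtain ⟨s, hs, h⟩ := exists_shorten hg hg'
    rw [Nat.succ_le_iff, Finset.card_pos]
    exact ⟨s, Finset.mem_filter.mpr ⟨hs, h⟩⟩
  | succ m ih =>
    intro g hg hg'
    obtain ⟨s, hs, h⟩ := exists_shorten hg hg'
    have hss : s * s = 1 := T1_sq (TT_sub hs)
    have hsi : s⁻¹ = s := by rw [inv_eq_iff_mul_eq_one]; exact hss
    have h' : g * s ∉ BB α m := by
      intro hc
      apply hg'
      rw [mem_BB_succ]
      exact ⟨s, TT_sub hs, hc⟩
    have h1 := ih (g * s) h h'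
    have h2 : (insert s ((DD m (g*s)).image (fun t => s * t * s⁻¹))) ⊆ DD (m+1) g := by
      intro t ht
      rw [Finset.mem_insert] at ht
      rcases ht with rfl | ht
      · exact Finset.mem_filter.mpr ⟨hs, h⟩
      · rw [Finset.mem_image] at ht
        obtain ⟨u, hu, rfl⟩ := ht
        obtain ⟨hu1, hu2⟩ := Finset.mem_filter.mp hu
        refine Finset.mem_filter.mpr ⟨TT_conj hu1 s, ?_⟩
        have : g * (s * u * s⁻¹) = (g * s * u) * s := by rw [hsi]; group
        rw [this]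
        exact BB_mul_T1 hu2 (TT_sub hs)
    have h3 : s ∉ (DD m (g*s)).image (fun t => s * t * s⁻¹) := by
      intro hc
      rw [Finset.mem_image] at hc
      obtain ⟨u, hu, hus⟩ := hc
      have hus' : u = s := by
        have : u = s⁻¹ * (s * u * s⁻¹) * s := by group
        rw [this, hus]; group
      rw [hus'] at hu
      obtain ⟨_, hu2⟩ := Finset.mem_filter.mp hu
      rw [mul_assoc, hss, mul_one] at hu2
      exact hg' (BB_mono m hu2)
    have h4 : ((DD m (g*s)).image (fun t => s * t * s⁻¹)).card = (DD m (g*s)).card := by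
      apply Finset.card_image_of_injective
      intro a b hab
      simpa using hab
    calc m + 1 + 1 ≤ (DD m (g*s)).card + 1 := by omega
      _ = (insert s ((DD m (g*s)).image (fun t => s * t * s⁻¹))).card := by
        rw [Finset.card_insert_of_notMem h3, h4]
      _ ≤ (DD (m+1) g).card := Finset.card_le_card h2

lemma parity [Nonempty α] (m : ℕ) : ∀ g ∈ BB α (m+1), g ∉ BB α m → sign g = (-1)^(m+1) := by
  induction m with
  | zero =>
    intro g hg hg'
    obtain ⟨s, hs, h⟩ := exists_shorten hg hg'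
    simp only [BB, Finset.mem_singleton] at h
    have h1 : sign g * sign s = 1 := by rw [← Perm.sign_mul, h, Perm.sign_one]
    rw [T1_sign hs] at h1
    have : sign g = -1 := by
      have h2 : sign g * (-1) * (-1) = 1 * (-1) := by rw [h1]
      simpa using h2
    rw [this]; rfl
  | succ m ih =>
    intro g hg hg'
    obtain ⟨s, hs, h⟩ := exists_shorten hg hg'
    have h' : g * s ∉ BB α m := by
      intro hc
      apply hg'
      rw [mem_BB_succ]
      exact ⟨s, TT_sub hs, hc⟩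
    have h1 := ih (g * s) h h'
    rw [Perm.sign_mul, T1_sign hs] at h1
    have h2 : sign g * (-1) * (-1) = (-1)^(m+1) * (-1) := by rw [h1]
    rw [pow_succ _ (m+1), ← h2]
    simp

lemma dc [Nonempty α] (m : ℕ) :
    (m+2) * (BB α (m+2) \ BB α (m+1)).card ≤ (TT α).card * (BB α (m+1) \ BB α m).card := by
  have h1 : (m+2) * (BB α (m+2) \ BB α (m+1)).card
      ≤ ((BB α (m+2) \ BB α (m+1)).sigma (fun g => DD (m+1) g)).card := by
    rw [Finset.card_sigma, mul_comm]
    have := Finset.card_nsmul_le_sum (BB α (m+2) \ BB α (m+1)) (fun g => (DD (m+1) g).card) (m+2)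
      (by
        intro g hg
        rw [Finset.mem_sdiff] at hg
        exact key (m+1) g hg.1 hg.2)
    simpa using this
  refine h1.trans ?_
  rw [mul_comm, ← Finset.card_product]
  apply Finset.card_le_card_of_injOn (fun x : (Σ _ : Perm α, Perm α) => (x.1 * x.2, x.2))
  · rintro ⟨g, t⟩ hx
    simp only [Finset.coe_sigma, Set.mem_sigma_iff, Finset.mem_coe, Finset.mem_sdiff] at hx
    obtain ⟨⟨hg1, hg2⟩, ht⟩ := hx
    obtain ⟨ht1, ht2⟩ := Finset.mem_filter.mp ht
    simp only [Finset.coe_product, Set.mem_prod, Finset.mem_coe, Finset.mem_sdiff]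
    refine ⟨⟨ht2, ?_⟩, ht1⟩
    intro hc
    exact hg2 (mem_BB_succ.mpr ⟨t, TT_sub ht1, hc⟩)
  · rintro ⟨g, t⟩ _ ⟨g', t'⟩ _ h
    simp only [Prod.mk.injEq] at h
    obtain ⟨h1, rfl⟩ := h
    have : g = g' := mul_right_cancel h1
    rw [this]

/-- the even part of a ball -/
def EB (α : Type) [Fintype α] [DecidableEq α] (m : ℕ) : Finset (Perm α) :=
  (BB α m).filter (fun g => sign g = 1)

lemma EB_growth [Nonempty α] (j : ℕ) :
    (2*j+3) * (2*j+4) * (EB α (2*j+4)).card ≤ ((2*j+3) * (2*j+4) + (TT α).card^2) * (EB α (2*j+2)).card := by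
  have h1 : EB α (2*j+4) ⊆ EB α (2*j+2) ∪ (BB α (2*j+4) \ BB α (2*j+3)) := by
    intro g hg
    obtain ⟨hg1, hg2⟩ := Finset.mem_filter.mp hg
    rw [Finset.mem_union, Finset.mem_sdiff]
    by_cases h3 : g ∈ BB α (2*j+3)
    · left
      refine Finset.mem_filter.mpr ⟨?_, hg2⟩
      by_contra h2
      have := parity (2*j+2) g h3 h2
      rw [hg2] at this
      have h4 : ((-1:ℤˣ))^(2*j+2+1) = -1 := by
        rw [show 2*j+2+1 = 2*(j+1)+1 by ring, pow_succ, pow_mul]; simp
      rw [h4] at this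
      exact absurd this (by decide)
    · right; exact ⟨hg1, h3⟩
  have h2 : (EB α (2*j+4)).card ≤ (EB α (2*j+2)).card + (BB α (2*j+4) \ BB α (2*j+3)).card :=
    (Finset.card_le_card h1).trans (Finset.card_union_le _ _)
  have h3 : BB α (2*j+2) \ BB α (2*j+1) ⊆ EB α (2*j+2) := by
    intro g hg
    rw [Finset.mem_sdiff] at hg
    refine Finset.mem_filter.mpr ⟨hg.1, ?_⟩
    rw [parity (2*j+1) g hg.1 hg.2, show 2*j+1+1 = 2*(j+1) by ring, pow_mul]; simp
  have h4 := Finset.card_le_card h3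
  have h5 := dc (α := α) (2*j+1)
  have h6 := dc (α := α) (2*j+2)
  have e1 : 2*j+1+2 = 2*j+3 := by ring
  have e2 : 2*j+1+1 = 2*j+2 := by ring
  have e3 : 2*j+2+2 = 2*j+4 := by ring
  have e4 : 2*j+2+1 = 2*j+3 := by ring
  rw [e1, e2] at h5
  rw [e3, e4] at h6
  set a := (EB α (2*j+4)).card
  set b := (EB α (2*j+2)).card
  set c := (BB α (2*j+4) \ BB α (2*j+3)).card
  set d := (BB α (2*j+3) \ BB α (2*j+2)).card
  set e := (BB α (2*j+2) \ BB α (2*j+1)).card
  set t := (TT α).card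
  calc (2*j+3) * (2*j+4) * a ≤ (2*j+3) * (2*j+4) * (b + c) := Nat.mul_le_mul_left _ h2
    _ = (2*j+3) * (2*j+4) * b + (2*j+3) * ((2*j+4) * c) := by ring
    _ ≤ (2*j+3) * (2*j+4) * b + (2*j+3) * (t * d) := by gcongr
    _ = (2*j+3) * (2*j+4) * b + t * ((2*j+3) * d) := by ring
    _ ≤ (2*j+3) * (2*j+4) * b + t * (t * e) := by gcongr
    _ ≤ (2*j+3) * (2*j+4) * b + t * (t * b) := by gcongr
    _ = _ := by ring

end Pool.Agent.H570R4
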