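import Pool.Agent.H570R4.Main

set_option autoImplicit false
open Equiv Equiv.Perm

namespace Pool.Agent.H570R4

lemma one_mem_BB {α : Type} [Fintype α] [DecidableEq α] [Nonempty α] (m : ℕ) :
    (1 : Perm α) ∈ BB α m := by
  induction m with
  | zero => simp [BB]
  | succ m ih => exact BB_mono m ih

lemma EB_pos {α : Type} [Fintype α] [DecidableEq α] [Nonempty α] (m : ℕ) :
    0 < (EB α m).card := by
  rw [Finset.card_pos]
  refine ⟨1, ?_⟩
  unfold EB
  rw [Finset.mem_filter]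
  exact ⟨one_mem_BB m, Perm.sign_one⟩

lemma noncomm (m : ℕ) (hm : 1 ≤ m) : ∃ a b : alternatingGroup (Om m), a * b ≠ b * a := by
  let z : Fin m := ⟨0, by omega⟩
  let p0 : Om m := (0, z)
  let p1 : Om m := (1, z)
  let p2 : Om m := (2, z)
  let p3 : Om m := (3, z)
  have h01 : p0 ≠ p1 := by intro h; simp [p0, p1] at h
  have h02 : p0 ≠ p2 := by intro h; simp [p0, p2] at h
  have h03 : p0 ≠ p3 := by intro h; simp [p0, p3] at h
  have h12 : p1 ≠ p2 := by intro h; simp [p1, p2] at h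
  have h13 : p1 ≠ p3 := by intro h; simp [p1, p3] at h
  have h23 : p2 ≠ p3 := by intro h; simp [p2, p3] at h
  refine ⟨⟨swap p0 p1 * swap p1 p2, ?_⟩, ⟨swap p0 p1 * swap p2 p3, ?_⟩, ?_⟩
  · rw [Perm.mem_alternatingGroup, Perm.sign_mul, sign_swap h01, sign_swap h12]; decide
  · rw [Perm.mem_alternatingGroup, Perm.sign_mul, sign_swap h01, sign_swap h23]; decide
  · intro h
    have h1 := congrArg (fun σ : alternatingGroup (Om m) => (σ : Perm (Om m)) p0) h
    have e1 : (swap p0 p1 * swap p1 p2 * (swap p0 p1 * swap p2 p3)) p0 = p2 := by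
      simp only [Perm.mul_apply]
      rw [swap_apply_of_ne_of_ne h02 h03, swap_apply_left, swap_apply_left,
        swap_apply_of_ne_of_ne h02.symm h12.symm]
    have e2 : (swap p0 p1 * swap p2 p3 * (swap p0 p1 * swap p1 p2)) p0 = p0 := by
      simp only [Perm.mul_apply]
      rw [swap_apply_of_ne_of_ne h01 h02, swap_apply_left, swap_apply_of_ne_of_ne h12 h13,
        swap_apply_right]
    have h2 : p2 = p0 := by rw [← e1, ← e2]; exact h1
    exact h02 h2.symm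

/-- the numerical contradiction -/
lemma numeric (N k : ℕ) (hk : k = 128 * N + 1) (hN : 1 ≤ N)
    (h : (2*k+1) * (2*k+2) * (N*k)^3 ≤ (2*k+1) * (2*k+2) + (256 * (N*k)^4)) : False := by
  set m := N * k with hm
  have hk1 : 129 ≤ k := by omega
  have hm2 : 2 ≤ m := by
    have : k ≤ N * k := Nat.le_mul_of_pos_left k hN
    omega
  set P := (2*k+1) * (2*k+2) with hP
  have h3 : 2 ≤ m^3 := by
    calc 2 ≤ 2^3 := by norm_num
      _ ≤ m^3 := Nat.pow_le_pow_left hm2 3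
  -- P ≤ P * m^3 / 2
  have h4 : 2 * P ≤ P * m^3 := by rw [mul_comm]; exact Nat.mul_le_mul_left _ h3
  have h5 : P * m^3 ≤ 512 * m^4 := by omega
  have h6 : P * m^3 ≤ (512 * m) * m^3 := by
    calc P * m^3 ≤ 512 * m^4 := h5
      _ = (512 * m) * m^3 := by ring
  have h7 : P ≤ 512 * m := Nat.le_of_mul_le_mul_right h6 (by positivity)
  have h8 : 4 * k * k ≤ P := by rw [hP]; nlinarith
  have h9 : 4 * k * k ≤ (512 * N) * k := by
    calc 4 * k * k ≤ P := h8
      _ ≤ 512 * m := h7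
      _ = (512 * N) * k := by rw [hm]; ring
  have h10 : 4 * k ≤ 512 * N := Nat.le_of_mul_le_mul_right h9 (by omega)
  omega

/-- the size condition -/
lemma size_ok (N k : ℕ) (δ : ℝ) (hδ : 0 < δ) (hN : 4 / δ ≤ N) (hN1 : 1 ≤ N) (hk : 1 ≤ k) (i : ℕ)
    (hi : i ≤ 2 * k) :
    ((((4*(N*k))^2)^i : ℕ) : ℝ) ≤ (Nat.card (alternatingGroup (Om (N*k))) : ℝ) ^ δ := by
  set m := N * k with hm
  have hm1 : 1 ≤ m := Nat.mul_pos hN1 hk
  have h1 : (((2*m)^(2*m) : ℕ) : ℝ) ≤ (Nat.card (alternatingGroup (Om m)) : ℝ) := by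
    exact_mod_cast card_alt_ge m hm1
  have h2 : (((2*m)^(2*m) : ℕ) : ℝ) ^ δ ≤ (Nat.card (alternatingGroup (Om m)) : ℝ) ^ δ :=
    Real.rpow_le_rpow (by positivity) h1 hδ.le
  refine le_trans ?_ h2
  have h3 : ((4*m)^2)^i ≤ (2*m)^(8*k) := by
    calc ((4*m)^2)^i ≤ ((4*m)^2)^(2*k) := Nat.pow_le_pow_right (by positivity) hi
      _ ≤ (((2*m)^2)^2)^(2*k) := by
          apply Nat.pow_le_pow_left
          apply Nat.pow_le_pow_left
          nlinarith
      _ = (2*m)^(8*k) := by rw [← pow_mul, ← pow_mul]; congr 1; ring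
  have h4 : ((((4*m)^2)^i : ℕ) : ℝ) ≤ (((2*m)^(8*k) : ℕ) : ℝ) := by exact_mod_cast h3
  refine h4.trans ?_
  push_cast
  have hb : (1:ℝ) ≤ 2 * (m:ℝ) := by
    have : (1:ℝ) ≤ m := by exact_mod_cast hm1
    linarith
  rw [← Real.rpow_natCast (2 * (m:ℝ)) (8*k), ← Real.rpow_natCast (2 * (m:ℝ)) (2*m),
    ← Real.rpow_mul (by linarith)]
  apply Real.rpow_le_rpow_of_exponent_le hb
  push_cast
  have h5 : 4 ≤ δ * N := by
    rw [div_le_iff₀ hδ] at hN
    linarith
  have h6 : (m:ℝ) = N * k := by rw [hm]; push_cast; ring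
  rw [h6]
  have hk0 : (0:ℝ) ≤ k := by positivity
  nlinarith

end Pool.Agent.H570R4
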