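import Pool.Agent.H570R4.Ball

set_option autoImplicit false
open Equiv Equiv.Perm

namespace Pool.Agent.H570R4

section sets
variable {α : Type} [Fintype α] [DecidableEq α]

/-- even permutations in the ball, as a set in the alternating group -/
def SB (α : Type) [Fintype α] [DecidableEq α] (m : ℕ) : Set (alternatingGroup α) :=
  {x | (x : Perm α) ∈ BB α m}

lemma card_SB (m : ℕ) : Nat.card ↥(SB α m) = (EB α m).card := by
  rw [Nat.card_coe_set_eq, ← Set.ncard_image_of_injective _ Subtype.val_injective,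
    ← Set.ncard_coe_finset]
  congr 1
  ext g
  simp only [SB, EB, Set.mem_image, Set.mem_setOf_eq, Finset.coe_filter, Subtype.exists]
  constructor
  · rintro ⟨a, ha, hb, rfl⟩
    exact ⟨hb, Perm.mem_alternatingGroup.mp ha⟩
  · rintro ⟨hb, ha⟩
    exact ⟨g, Perm.mem_alternatingGroup.mpr ha, hb, rfl⟩

open Pointwise in
lemma prod_sub (m : ℕ) (g : alternatingGroup α) :
    SB α m * ((fun a : alternatingGroup α => g⁻¹ * a * g) '' SB α 2) ⊆ SB α (m+2) := by
  rintro x ⟨b, hb, c, ⟨a, ha, rfl⟩, rfl⟩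
  show ((b * (g⁻¹ * a * g) : alternatingGroup α) : Perm α) ∈ BB α (m+2)
  have h1 : ((g : Perm α)⁻¹ * (a : Perm α) * ((g : Perm α)⁻¹)⁻¹) ∈ BB α 2 := BB_conj 2 _ ha _
  rw [inv_inv] at h1
  exact BB_mul_two hb h1

open Pointwise in
lemma card_prod (j : ℕ) (g : alternatingGroup α) :
    Nat.card ↥(SB α (2*j+2) * ((fun a : alternatingGroup α => g⁻¹ * a * g) '' SB α 2))
      ≤ (EB α (2*j+4)).card := by
  rw [← card_SB]
  exact Nat.card_mono (Set.toFinite _) (prod_sub _ g)

end sets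

/-- the underlying set with `4m` points -/
abbrev Om (m : ℕ) := Fin 4 × Fin m

lemma card_Om (m : ℕ) : Fintype.card (Om m) = 4 * m := by simp

def dsw (m : ℕ) (x : Fin m × Fin m × Fin m × Fin m) : Perm (Om m) :=
  swap ((0 : Fin 4), x.1) ((1 : Fin 4), x.2.1) * swap ((2 : Fin 4), x.2.2.1) ((3 : Fin 4), x.2.2.2)

lemma dsw_mem (m : ℕ) (x : Fin m × Fin m × Fin m × Fin m) : dsw m x ∈ EB (Om m) 2 := by
  refine Finset.mem_filter.mpr ⟨?_, ?_⟩
  · have h1 : (1 : Perm (Om m)) ∈ BB (Om m) 0 := by simp [BB]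
    have h2 : swap ((0 : Fin 4), x.1) ((1 : Fin 4), x.2.1) ∈ BB (Om m) 1 := by
      have := BB_mul_T1 (t := swap ((0 : Fin 4), x.1) ((1 : Fin 4), x.2.1)) h1 (mem_T1.mpr ⟨_, _, rfl⟩)
      rwa [one_mul] at this
    exact BB_mul_T1 h2 (mem_T1.mpr ⟨_, _, rfl⟩)
  · unfold dsw
    rw [Perm.sign_mul, sign_swap, sign_swap]
    · decide
    · intro h; simp at h
    · intro h; simp at h

lemma dsw_inj (m : ℕ) : Function.Injective (dsw m) := by
  rintro ⟨a, b, c, d⟩ ⟨a', b', c', d'⟩ h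
  have h1 := congrArg (fun σ : Perm (Om m) => σ ((0 : Fin 4), a)) h
  have h2 := congrArg (fun σ : Perm (Om m) => σ ((2 : Fin 4), c)) h
  simp only [dsw, Perm.mul_apply, swap_apply_def, Prod.mk.injEq] at h1 h2
  have h3 : a = a' ∧ b = b' := by
    by_cases ha : a = a'
    · subst ha
      simp at h1
      exact ⟨rfl, h1⟩
    · simp [ha] at h1
  have h4 : c = c' ∧ d = d' := by
    by_cases hc : c = c'
    · subst hc
      simp at h2
      exact ⟨rfl, h2⟩
    · simp [hc] at h2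
  obtain ⟨rfl, rfl⟩ := h3
  obtain ⟨rfl, rfl⟩ := h4
  rfl

lemma card_EB2_ge (m : ℕ) : m ^ 4 ≤ (EB (Om m) 2).card := by
  have h := Finset.card_le_card_of_injOn (s := (Finset.univ : Finset (Fin m × Fin m × Fin m × Fin m)))
    (t := EB (Om m) 2) (dsw m) (fun x _ => dsw_mem m x) ((dsw_inj m).injOn)
  rw [Finset.card_univ] at h
  simp only [Fintype.card_prod, Fintype.card_fin] at h
  calc m ^ 4 = m * (m * (m * m)) := by ring
    _ ≤ _ := h

lemma card_EB_le (m i : ℕ) : (EB (Om m) i).card ≤ ((4*m)^2)^i := by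
  refine (Finset.card_le_card (Finset.filter_subset _ _)).trans ?_
  have := card_BB (α := Om m) i
  rwa [card_Om] at this

lemma card_alt_ge (m : ℕ) (hm : 1 ≤ m) : (2*m)^(2*m) ≤ Nat.card (alternatingGroup (Om m)) := by
  haveI : Nontrivial (Om m) := by
    rw [← Fintype.one_lt_card_iff_nontrivial, card_Om]; omega
  have h1 := two_mul_nat_card_alternatingGroup (α := Om m)
  rw [Nat.card_eq_fintype_card (α := Perm (Om m)), Fintype.card_perm, card_Om] at h1
  have h2 : (2*m).factorial * (2*m+1)^(2*m) ≤ (2*m + 2*m).factorial := Nat.factorial_mul_pow_le_factorial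
  have h3 : 2 ≤ (2*m).factorial := by
    calc 2 = (2).factorial := rfl
      _ ≤ (2*m).factorial := Nat.factorial_le (by omega)
  have h4 : (2*m)^(2*m) ≤ (2*m+1)^(2*m) := Nat.pow_le_pow_left (by omega) _
  have h5 : 2*m+2*m = 4*m := by ring
  rw [h5] at h2
  have h6 : 2 * (2*m)^(2*m) ≤ (4*m).factorial := by
    calc 2 * (2*m)^(2*m) ≤ (2*m).factorial * (2*m+1)^(2*m) := Nat.mul_le_mul h3 h4
      _ ≤ _ := h2
  omega

end Pool.Agent.H570R4
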